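import Pool.Agent.Helper12.RQ.Polar

/-! Packet PROF. -/

set_option autoImplicit false

open MeasureTheory Set Filter Topology Metric
open Pool.Agent.Helper12.RQ

open scoped ENNReal NNReal ContDiff RealInnerProductSpace

namespace Pool.Agent.Helper26.RQ

theorem aff (κ β : ℝ) (hκ : 0 < κ) (g : ℝ → ℝ≥0∞) (hg : Measurable g) :
    ∫⁻ t, g (κ * t + β) = ENNReal.ofReal κ⁻¹ * ∫⁻ s, g s := by
  have h1 : ∫⁻ t, g (κ * t + β) = ∫⁻ s, g (s + β) ∂(Measure.map (κ * ·) volume) := by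
    have h2 : Measurable (fun s : ℝ => g (s + β)) := hg.comp (measurable_id.add_const β)
    rw [lintegral_map h2 (measurable_const_mul κ)]
  rw [h1, Real.map_volume_mul_left hκ.ne', lintegral_smul_measure,
    lintegral_add_right_eq_self (μ := (volume : Measure ℝ)) g β,
    abs_of_pos (inv_pos.mpr hκ), smul_eq_mul]

/-- Bounds for the slopes of `H` between points of `I`. -/
def Sl (H : ℝ → ℝ) (I : Set ℝ) (c C : ℝ) : Prop :=
  ∀ s ∈ I, ∀ t ∈ I, s ≤ t → c * (t - s) ≤ H t - H s ∧ H t - H s ≤ C * (t - s)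

theorem Sl.mono {H : ℝ → ℝ} {I : Set ℝ} {c C c' C' : ℝ} (h : Sl H I c C) (hc : c' ≤ c)
    (hC : C ≤ C') : Sl H I c' C' := by
  intro s hs t ht hst
  obtain ⟨h1, h2⟩ := h s hs t ht hst
  have h3 : 0 ≤ t - s := by linarith
  constructor
  · exact le_trans (mul_le_mul_of_nonneg_right hc h3) h1
  · exact le_trans h2 (mul_le_mul_of_nonneg_right hC h3)

theorem Sl.glue {H : ℝ → ℝ} {I J K : Set ℝ} {a c C : ℝ} (hI : Sl H I c C) (hJ : Sl H J c C)
    (ha : a ∈ I) (ha' : a ∈ J) (hK : ∀ t ∈ K, (t ≤ a ∧ t ∈ I) ∨ (a ≤ t ∧ t ∈ J)) :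
    Sl H K c C := by
  intro s hs t ht hst
  rcases hK s hs with ⟨h1, h2⟩ | ⟨h1, h2⟩ <;> rcases hK t ht with ⟨h3, h4⟩ | ⟨h3, h4⟩
  · exact hI s h2 t h4 hst
  · obtain ⟨h5, h6⟩ := hI s h2 a ha h1
    obtain ⟨h7, h8⟩ := hJ a ha' t h4 h3
    constructor <;> nlinarith
  · have h5 : t = a := le_antisymm h3 (h1.trans hst)
    have h6 : s = a := le_antisymm (hst.trans h3) h1
    subst h5
    rw [h6]
    simp
  · exact hJ s h2 t h4 hst

theorem Sl.congr {H H' : ℝ → ℝ} {I : Set ℝ} {c C : ℝ} (h : Sl H' I c C)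
    (e : ∀ t ∈ I, H t = H' t) : Sl H I c C := by
  intro s hs t ht hst
  rw [e s hs, e t ht]
  exact h s hs t ht hst

theorem Sl.affine (κ β : ℝ) (I : Set ℝ) : Sl (fun t => κ * t + β) I κ κ := by
  intro s _ t _ _
  constructor <;> nlinarith

theorem Sl.lip {H : ℝ → ℝ} {c C : ℝ} (h : Sl H univ c C) (hc : 0 ≤ c) :
    ∀ s t, |H t - H s| ≤ C * |t - s| := by
  intro s t
  rcases le_total s t with hst | hst
  · obtain ⟨h1, h2⟩ := h s trivial t trivial hst
    have h3 : 0 ≤ t - s := by linarith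
    rw [abs_of_nonneg h3, abs_of_nonneg (le_trans (mul_nonneg hc h3) h1)]
    exact h2
  · obtain ⟨h1, h2⟩ := h t trivial s trivial hst
    have h3 : 0 ≤ s - t := by linarith
    rw [abs_sub_comm, abs_sub_comm t s, abs_of_nonneg h3,
      abs_of_nonneg (le_trans (mul_nonneg hc h3) h1)]
    exact h2

theorem Sl.strictMono {H : ℝ → ℝ} {c C : ℝ} (h : Sl H univ c C) (hc : 0 < c) :
    StrictMono H := by
  intro s t hst
  obtain ⟨h1, _⟩ := h s trivial t trivial hst.le
  have h3 : 0 < c * (t - s) := mul_pos hc (by linarith)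
  linarith

/-- The level function. -/
noncomputable def HH (r R τ δ T : ℝ) (h : ℝ → ℝ) (t : ℝ) : ℝ :=
  if t ≤ δ then (r - τ) / δ * t else
    if t ≤ 1 then τ / (1 - δ) * t + (r - τ - τ / (1 - δ) * δ) else
      if t ≤ T then h t else t + (R - T)

variable {r R τ δ T c' C' : ℝ} {h : ℝ → ℝ}

theorem HH_one (hδ1 : δ < 1) : HH r R τ δ T h 1 = r := by
  unfold HH
  rw [if_neg (by linarith), if_pos le_rfl]
  have : 1 - δ ≠ 0 := by linarith
  field_simp
  ring

theorem HH_1 : ∀ t ∈ Iic δ, HH r R τ δ T h t = (r - τ) / δ * t + 0 := by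
  intro t ht
  have ht' : t ≤ δ := ht
  unfold HH
  rw [if_pos ht', add_zero]

theorem HH_2 (hδ0 : 0 < δ) : ∀ t ∈ Icc δ 1, HH r R τ δ T h t =
    τ / (1 - δ) * t + (r - τ - τ / (1 - δ) * δ) := by
  intro t ht
  unfold HH
  by_cases h1 : t ≤ δ
  · have h2 : t = δ := le_antisymm h1 ht.1
    rw [if_pos h1, h2]
    field_simp
    ring
  · rw [if_neg h1, if_pos ht.2]

theorem HH_3 (hδ1 : δ < 1) (h1r : h 1 = r) :
    ∀ t ∈ Icc 1 T, HH r R τ δ T h t = h t := by
  intro t ht
  by_cases h1 : t ≤ 1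
  · have h2 : t = 1 := le_antisymm h1 ht.1
    rw [h2, HH_one hδ1, h1r]
  · unfold HH
    rw [if_neg (by linarith [ht.1]), if_neg h1, if_pos ht.2]

theorem HH_4 (hδ1 : δ < 1) (hT : 1 < T) (hTR : h T = R) :
    ∀ t ∈ Ici T, HH r R τ δ T h t = 1 * t + (R - T) := by
  intro t ht
  have ht' : T ≤ t := ht
  by_cases h1 : t ≤ T
  · have h2 : t = T := le_antisymm h1 ht'
    unfold HH
    rw [if_neg (by linarith), if_neg (by linarith), if_pos h1, h2, hTR]
    ring
  · unfold HH
    rw [if_neg (by linarith), if_neg (by linarith), if_neg h1, one_mul]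

theorem HH_Sl (hδ0 : 0 < δ) (hδ1 : δ < 1) (hT : 1 < T) (hτ0 : 0 < τ) (hτr : τ < r)
    (h1r : h 1 = r) (hTR : h T = R) (hc' : 0 < c')
    (hh : ∀ s t, 1 ≤ s → s ≤ t → t ≤ T → c' * (t - s) ≤ h t - h s ∧ h t - h s ≤ C' * (t - s)) :
    ∃ c C : ℝ, 0 < c ∧ 0 ≤ C ∧ Sl (HH r R τ δ T h) univ c C := by
  set k1 := (r - τ) / δ with hk1
  set k2 := τ / (1 - δ) with hk2
  have hk1p : 0 < k1 := div_pos (by linarith) hδ0
  have hk2p : 0 < k2 := div_pos hτ0 (by linarith)
  set c := min (min k1 k2) (min c' 1) with hc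
  set C := max (max k1 k2) (max C' 1) with hC
  have e1 : c ≤ k1 := le_trans (min_le_left _ _) (min_le_left _ _)
  have e2 : c ≤ k2 := le_trans (min_le_left _ _) (min_le_right _ _)
  have e3 : c ≤ c' := le_trans (min_le_right _ _) (min_le_left _ _)
  have e4 : c ≤ 1 := le_trans (min_le_right _ _) (min_le_right _ _)
  have f1 : k1 ≤ C := le_trans (le_max_left _ _) (le_max_left _ _)
  have f2 : k2 ≤ C := le_trans (le_max_right _ _) (le_max_left _ _)
  have f3 : C' ≤ C := le_trans (le_max_left _ _) (le_max_right _ _)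
  have f4 : 1 ≤ C := le_trans (le_max_right _ _) (le_max_right _ _)
  have s1 : Sl (HH r R τ δ T h) (Iic δ) c C :=
    ((Sl.affine k1 0 (Iic δ)).congr HH_1).mono e1 f1
  have s2 : Sl (HH r R τ δ T h) (Icc δ 1) c C :=
    ((Sl.affine k2 _ (Icc δ 1)).congr (HH_2 hδ0)).mono e2 f2
  have s3 : Sl (HH r R τ δ T h) (Icc 1 T) c C := by
    refine Sl.mono (c := c') (C := C') ?_ e3 f3
    refine Sl.congr (H' := h) ?_ (HH_3 hδ1 h1r)
    intro s hs t ht hst
    exact hh s t hs.1 hst ht.2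
  have s4 : Sl (HH r R τ δ T h) (Ici T) c C :=
    ((Sl.affine 1 _ (Ici T)).congr (HH_4 hδ1 hT hTR)).mono e4 f4
  refine ⟨c, C, lt_min (lt_min hk1p hk2p) (lt_min hc' one_pos), by linarith, ?_⟩
  have s12 : Sl (HH r R τ δ T h) (Iic 1) c C := by
    refine Sl.glue (a := δ) s1 s2 (mem_Iic.mpr le_rfl) ⟨le_rfl, hδ1.le⟩ ?_
    intro t ht
    rcases le_total t δ with h1 | h1
    · exact Or.inl ⟨h1, h1⟩
    · exact Or.inr ⟨h1, h1, ht⟩
  have s123 : Sl (HH r R τ δ T h) (Iic T) c C := by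
    refine Sl.glue (a := 1) s12 s3 (mem_Iic.mpr le_rfl) ⟨le_rfl, hT.le⟩ ?_
    intro t ht
    rcases le_total t 1 with h1 | h1
    · exact Or.inl ⟨h1, h1⟩
    · exact Or.inr ⟨h1, h1, ht⟩
  refine Sl.glue (a := T) s123 s4 (mem_Iic.mpr le_rfl) (mem_Ici.mpr le_rfl) ?_
  intro t _
  rcases le_total t T with h1 | h1
  · exact Or.inl ⟨h1, h1⟩
  · exact Or.inr ⟨h1, h1⟩

theorem HH_deriv1 {t : ℝ} (ht : t < δ) : deriv (HH r R τ δ T h) t = (r - τ) / δ := by
  have h1 : HH r R τ δ T h =ᶠ[𝓝 t] fun t => (r - τ) / δ * t + 0 := by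
    filter_upwards [Iio_mem_nhds ht] with u hu
    exact HH_1 u (mem_Iic.mpr (le_of_lt (mem_Iio.mp hu)))
  rw [h1.deriv_eq]
  simp

theorem HH_deriv2 (hδ0 : 0 < δ) {t : ℝ} (ht : t ∈ Ioo δ 1) :
    deriv (HH r R τ δ T h) t = τ / (1 - δ) := by
  have h1 : HH r R τ δ T h =ᶠ[𝓝 t]
      fun t => τ / (1 - δ) * t + (r - τ - τ / (1 - δ) * δ) := by
    filter_upwards [Ioo_mem_nhds ht.1 ht.2] with u hu
    exact HH_2 hδ0 u ⟨hu.1.le, hu.2.le⟩
  rw [h1.deriv_eq]
  simp

theorem HH_deriv3 (hδ1 : δ < 1) (h1r : h 1 = r) {t : ℝ} (ht : t ∈ Ioo 1 T) :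
    deriv (HH r R τ δ T h) t = deriv h t := by
  have h1 : HH r R τ δ T h =ᶠ[𝓝 t] h := by
    filter_upwards [Ioo_mem_nhds ht.1 ht.2] with u hu
    exact HH_3 hδ1 h1r u ⟨hu.1.le, hu.2.le⟩
  exact h1.deriv_eq

/-- Scaling of a star function. -/
theorem star_scale {n : ℕ} {c l : ℝ} {N : E n → ℝ} (hN : IsStar c l N) {lam : ℝ}
    (hlam : 0 < lam) : IsStar (c / lam) (l / lam) (fun y => N (lam⁻¹ • y)) where
  cpos := div_pos hN.cpos hlam
  zero := by simp [hN.zero]
  lip y z := by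
    refine le_trans (hN.lip _ _) ?_
    rw [← smul_sub, norm_smul, norm_inv, Real.norm_of_nonneg hlam.le]
    exact le_of_eq (by ring)
  slope y t ht := by
    have h1 := hN.slope (lam⁻¹ • y) t ht
    rw [norm_smul, norm_inv, Real.norm_of_nonneg hlam.le, smul_comm] at h1
    refine le_trans (le_of_eq (by ring)) h1

/-- Composition of a star function with an increasing function. -/
theorem star_comp {n : ℕ} {c l : ℝ} {N : E n → ℝ} (hN : IsStar c l N) {H : ℝ → ℝ}
    {k K : ℝ} (hk : 0 < k) (hK : 0 ≤ K) (hH : Sl H univ k K) (hH0 : H 0 = 0) :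
    IsStar (k * c) (K * l) (fun y => H (N y)) where
  cpos := mul_pos hk hN.cpos
  zero := by rw [hN.zero, hH0]
  lip y z := by
    refine le_trans (hH.lip hk.le _ _) ?_
    rw [mul_assoc]
    refine mul_le_mul_of_nonneg_left ?_ hK
    rw [abs_sub_comm, abs_sub_comm]
    exact hN.lip y z
  slope y t ht := by
    have h1 := hN.slope y t ht
    have h2 : 0 ≤ c * (1 - t) * ‖y‖ :=
      mul_nonneg (mul_nonneg hN.cpos.le (by linarith [ht.2])) (norm_nonneg _)
    obtain ⟨h3, _⟩ := hH (N (t • y)) trivial (N y) trivial (by linarith)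
    refine le_trans ?_ h3
    rw [mul_assoc, mul_assoc, ← mul_assoc c]
    exact mul_le_mul_of_nonneg_left h1 hk.le

/-- The density of the scaled star function. -/
theorem dens_scale (hscal : StmtSCAL) {n : ℕ} {p c l : ℝ} (hp : 0 < p) {N : E n → ℝ}
    (hN : IsStar c l N) {D : ℝ → ℝ≥0∞} {d₁ d₂ : ℝ} (hD : IsDens p N D d₁ d₂) {lam : ℝ}
    (hlam : 0 < lam) : IsDens p (fun y => N (lam⁻¹ • y))
      (fun t => ENNReal.ofReal (lam ^ (n - p)) * D t) (lam ^ (n - p) * d₁)
      (lam ^ (n - p) * d₂) where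
  meas := hD.meas.const_mul _
  pos := mul_pos (Real.rpow_pos_of_pos hlam _) hD.pos
  lower t ht := by
    rw [mul_assoc, ENNReal.ofReal_mul (Real.rpow_nonneg hlam.le _)]
    exact mul_le_mul_right (hD.lower t ht) _
  upper t ht := by
    rw [mul_assoc, ENNReal.ofReal_mul (Real.rpow_nonneg hlam.le _)]
    exact mul_le_mul_right (hD.upper t ht) _
  flux_eq B hB hB0 := by
    have hcont : Continuous N := by
      have hl : LipschitzWith (Real.toNNReal l) N := by
        refine LipschitzWith.of_dist_le_mul fun y z => ?_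
        rw [Real.dist_eq, dist_eq_norm]
        refine le_trans (hN.lip y z) ?_
        exact mul_le_mul_of_nonneg_right (Real.le_coe_toNNReal l) (norm_nonneg _)
      exact hl.continuous
    rw [hscal n p hp N lam hlam hcont B hB, hD.flux_eq B hB hB0,
      lintegral_const_mul _ hD.meas]

/-- An affine piece. -/
theorem piece {n : ℕ} (hn : 1 ≤ n) {p κ β ε : ℝ} (hκ : 0 < κ)
    {H : ℝ → ℝ} {D G : ℝ → ℝ≥0∞} (hG : Measurable G) {B : Set ℝ} (hB : MeasurableSet B)
    (hB0 : B ⊆ Ioi 0) (hHm : Measurable H)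
    (h1 : ∀ t, H t ∈ B → deriv H t = κ ∧ H t = κ * t + β ∧ D t ≤ G (H t))
    (h2 : ∀ s ∈ B, ENNReal.ofReal κ⁻¹ * (ENNReal.ofReal κ ^ p * G s) ≤
      ENNReal.ofReal (om n) * (ENNReal.ofReal ε * ENNReal.ofReal (s ^ (n - 1)))) :
    ∫⁻ t in H ⁻¹' B, ‖deriv H t‖ₑ ^ p * D t ≤
      ∫⁻ _x in {x : E n | ‖x‖ ∈ B}, ENNReal.ofReal ε := by
  rw [polar n hn (fun _ => ENNReal.ofReal ε) measurable_const B hB hB0]
  have hBm : MeasurableSet (H ⁻¹' B) := hHm hB
  have e1 : ∫⁻ t in H ⁻¹' B, ‖deriv H t‖ₑ ^ p * D t ≤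
      ∫⁻ t, B.indicator (fun s => ENNReal.ofReal κ ^ p * G s) (κ * t + β) := by
    rw [← lintegral_indicator hBm]
    refine lintegral_mono fun t => ?_
    by_cases ht : H t ∈ B
    · obtain ⟨a1, a2, a3⟩ := h1 t ht
      rw [indicator_of_mem (show t ∈ H ⁻¹' B from ht), ← a2, indicator_of_mem ht, a1]
      refine mul_le_mul' (le_of_eq ?_) a3
      rw [Real.enorm_eq_ofReal hκ.le]
    · rw [indicator_of_notMem (show t ∉ H ⁻¹' B from ht)]
      exact bot_le
  refine le_trans e1 ?_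
  have hm : Measurable (fun s => ENNReal.ofReal κ ^ p * G s) := hG.const_mul _
  rw [aff κ β hκ _ (hm.indicator hB), lintegral_indicator hB,
    ← lintegral_const_mul _ hm, ← lintegral_const_mul _ (by fun_prop)]
  exact setLIntegral_mono' hB h2

theorem choose_small (a X d : ℝ) (ha : 0 < a) (hX : 0 < X) (hd : 0 ≤ d) :
    ∃ u : ℝ, 0 < u ∧ u ^ a * d ≤ X := by
  refine ⟨(X / (d + 1)) ^ (1 / a), Real.rpow_pos_of_pos (by positivity) _, ?_⟩
  rw [← Real.rpow_mul (by positivity), one_div_mul_cancel ha.ne', Real.rpow_one,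
    div_mul_eq_mul_div, div_le_iff₀ (by positivity)]
  nlinarith

theorem T0_fin {n : ℕ} {D : ℝ → ℝ≥0∞} {d₁ q T : ℝ} (hq : 0 ≤ q) (hd : 0 < d₁)
    (hD : ∀ t : ℝ, 0 < t → ENNReal.ofReal (d₁ * t ^ (n - 1)) ≤ D t) :
    ∫⁻ t in Ioo 1 T, D t ^ (-q) < ⊤ := by
  have h1 : ∫⁻ t in Ioo 1 T, D t ^ (-q) ≤ ∫⁻ _t in Ioo 1 T, (ENNReal.ofReal d₁ ^ q)⁻¹ := by
    refine setLIntegral_mono' measurableSet_Ioo fun t ht => ?_
    rw [ENNReal.rpow_neg, ENNReal.inv_le_inv]
    refine ENNReal.rpow_le_rpow ?_ hq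
    refine le_trans (ENNReal.ofReal_le_ofReal ?_) (hD t (by linarith [ht.1]))
    have : (1 : ℝ) ≤ t ^ (n - 1) := one_le_pow₀ ht.1.le
    nlinarith
  refine lt_of_le_of_lt h1 ?_
  rw [setLIntegral_const]
  refine ENNReal.mul_lt_top ?_ (by simp)
  rw [ENNReal.ofReal_rpow_of_pos hd, ENNReal.inv_lt_top]
  exact ENNReal.ofReal_pos.mpr (Real.rpow_pos_of_pos hd _)

theorem T0_scale {n : ℕ} {p : ℝ} {N : E n → ℝ} {D : ℝ → ℝ≥0∞} {d₁ d₂ q T a : ℝ}
    (hD : IsDens p N D d₁ d₂) :
    ∫⁻ t in Ioo 1 T, (ENNReal.ofReal a * D t) ^ (-q) =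
      ENNReal.ofReal a ^ (-q) * ∫⁻ t in Ioo 1 T, D t ^ (-q) := by
  rw [← lintegral_const_mul _ (hD.meas.pow_const _)]
  refine setLIntegral_congr_fun measurableSet_Ioo fun t ht => ?_
  refine ENNReal.mul_rpow_of_ne_top ENNReal.ofReal_ne_top ?_ _
  exact ne_top_of_le_ne_top ENNReal.ofReal_ne_top (hD.upper t (by linarith [ht.1]))

theorem real1 {n : ℕ} {κ p d ε s : ℝ} (hn : 1 ≤ n) (hκ : 0 < κ) (hs : 0 < s)
    (hε : 0 < ε) (h : κ ^ (p - n) * d ≤ om n * ε) :
    ENNReal.ofReal κ⁻¹ * (ENNReal.ofReal κ ^ p * ENNReal.ofReal (d * (s / κ) ^ (n - 1))) ≤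
      ENNReal.ofReal (om n) * (ENNReal.ofReal ε * ENNReal.ofReal (s ^ (n - 1))) := by
  have hom := om_pos n hn
  rw [ENNReal.ofReal_rpow_of_pos hκ, ← ENNReal.ofReal_mul (by positivity),
    ← ENNReal.ofReal_mul (by positivity), ← ENNReal.ofReal_mul (by positivity),
    ← ENNReal.ofReal_mul (by positivity)]
  refine ENNReal.ofReal_le_ofReal ?_
  have h1 : κ⁻¹ * (κ ^ p * (d * (s / κ) ^ (n - 1))) = κ ^ (p - n) * d * s ^ (n - 1) := by
    rw [Real.rpow_sub hκ, Real.rpow_natCast, div_pow]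
    have h2 : κ ^ n = κ ^ (n - 1) * κ := by
      rw [← pow_succ]
      congr 1
      omega
    rw [h2]
    field_simp
  rw [h1]
  calc κ ^ (p - n) * d * s ^ (n - 1) ≤ om n * ε * s ^ (n - 1) :=
        mul_le_mul_of_nonneg_right h (by positivity)
    _ = om n * (ε * s ^ (n - 1)) := by ring

theorem real2 {n : ℕ} {κ p d ε s s₀ : ℝ} (hn : 1 ≤ n) (hκ : 0 < κ) (hs0 : 0 < s₀)
    (hs : s₀ ≤ s) (hε : 0 < ε) (h : κ ^ (p - 1) * d ≤ om n * ε * s₀ ^ (n - 1)) :
    ENNReal.ofReal κ⁻¹ * (ENNReal.ofReal κ ^ p * ENNReal.ofReal d) ≤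
      ENNReal.ofReal (om n) * (ENNReal.ofReal ε * ENNReal.ofReal (s ^ (n - 1))) := by
  have hom := om_pos n hn
  have hs' : 0 < s := lt_of_lt_of_le hs0 hs
  rw [ENNReal.ofReal_rpow_of_pos hκ, ← ENNReal.ofReal_mul (by positivity),
    ← ENNReal.ofReal_mul (by positivity), ← ENNReal.ofReal_mul (by positivity),
    ← ENNReal.ofReal_mul (by positivity)]
  refine ENNReal.ofReal_le_ofReal ?_
  have h1 : κ⁻¹ * (κ ^ p * d) = κ ^ (p - 1) * d := by
    rw [Real.rpow_sub hκ, Real.rpow_one]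
    field_simp
  rw [h1]
  have h3 : s₀ ^ (n - 1) ≤ s ^ (n - 1) := pow_le_pow_left₀ hs0.le hs _
  calc κ ^ (p - 1) * d ≤ om n * ε * s₀ ^ (n - 1) := h
    _ ≤ om n * ε * s ^ (n - 1) := mul_le_mul_of_nonneg_left h3 (by positivity)
    _ = om n * (ε * s ^ (n - 1)) := by ring

theorem flux_comp (hchain : StmtCHAIN) {n : ℕ} {p c l : ℝ} {N : E n → ℝ} {D : ℝ → ℝ≥0∞}
    {d₁ d₂ : ℝ} (hn : 2 ≤ n) (hp : 1 ≤ p) (hN : IsStar c l N) (hD : IsDens p N D d₁ d₂)
    {H : ℝ → ℝ} {k K : ℝ} (hk : 0 < k) (hK : 0 ≤ K) (hH : Sl H univ k K) (hH0 : H 0 = 0)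
    {B : Set ℝ} (hB : MeasurableSet B) (hB0 : B ⊆ Ioi 0) :
    flux p (fun y => H (N y)) B = ∫⁻ t in H ⁻¹' B, ‖deriv H t‖ₑ ^ p * D t := by
  have hL : LipschitzWith ⟨K, hK⟩ H := by
    refine LipschitzWith.of_dist_le_mul fun y z => ?_
    rw [Real.dist_eq, Real.dist_eq, abs_sub_comm, abs_sub_comm y z]
    exact hH.lip hk.le y z
  have h1 := hchain n p c l N D d₁ d₂ hn hp hN hD H ⟨K, hK⟩ hL (H ⁻¹' B)
    (hL.continuous.measurable hB) (by
      intro t ht
      by_contra hc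
      have h2 : H t ≤ H 0 := (hH.strictMono hk).monotone (not_lt.mp hc)
      have h3 : 0 < H t := hB0 ht
      linarith) (fun _ => 1) measurable_const
  simp only [one_mul] at h1
  exact h1

theorem prof (h1 : StmtNEEDLE) (h2 : StmtDENS) (h3 : StmtSCAL) (h4 : StmtCHAIN)
    (h5 : StmtFLUX) (h6 : StmtHOMEO) (h7 : StmtIRQ) (h8 : StmtPOS) : StmtPROF := by
  intro n p hn hp1 hp2 r R θ hr hrR hθ hθ0 ε hε
  have hn2 : (2 : ℝ) ≤ n := by exact_mod_cast hn
  have hp : 1 < p := by linarith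
  have hpn : 0 < n - p := by linarith
  have hp1' : 0 < p - 1 := by linarith
  have hom := om_pos n (by omega)
  obtain ⟨hs0, hsT⟩ := h8 n p hn hp1 hp2
  obtain ⟨M, hM1, hM⟩ := h1 n p hn hp1 hp2 ε hε
  obtain ⟨N, e, A, δ', c, l, he, hA, -, -, hN, -, -, hNe, hNT⟩ := hM M le_rfl
  obtain ⟨⟨D, d₁, d₂, hD⟩, -⟩ := h2 n p c l N hn hp.le hN
  set T := M + A with hTdef
  have hT : 1 < T := by linarith
  have hT0 := hNT D d₁ d₂ hD
  set q := 1 / (p - 1) with hq
  have hq0 : 0 < q := by positivity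
  set T0 := ∫⁻ t in Ioo 1 T, D t ^ (-q) with hT0def
  have hkap0 : 0 ≤ kap n p := ENNReal.toReal_nonneg
  have hsum : segCap n p + ENNReal.ofReal ε = ENNReal.ofReal (kap n p + ε) := by
    rw [ENNReal.ofReal_add hkap0 hε.le, kap, ENNReal.ofReal_toReal hsT.ne]
  rw [hsum, ENNReal.ofReal_rpow_of_pos (by linarith)] at hT0
  have hT0top : T0 ≠ ⊤ := (T0_fin (n := n) hq0.le hD.pos hD.lower).ne
  set t0 := T0.toReal with ht0
  have hT0r : T0 = ENNReal.ofReal t0 := (ENNReal.ofReal_toReal hT0top).symm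
  have ht0ge : (kap n p + ε) ^ (-q) ≤ t0 := by
    rw [ht0]
    exact (ENNReal.ofReal_le_iff_le_toReal hT0top).mp hT0
  have hkp : 0 < kap n p + ε := by linarith
  have ht0pos : 0 < t0 := lt_of_lt_of_le (Real.rpow_pos_of_pos hkp _) ht0ge
  -- the integral of the profile
  set Th := ∫ s in r..R, θ s with hTh
  have hThpos : 0 < Th := by
    refine intervalIntegral.intervalIntegral_pos_of_pos_on ?_ ?_ hrR
    · exact ContinuousOn.intervalIntegrable (by rwa [uIcc_of_le hrR.le])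
    · intro x hx
      exact hθ0 x ⟨hx.1.le, hx.2.le⟩
  set lam := (t0 / Th) ^ ((p - 1) / (n - p)) with hlam
  have hratio : 0 < t0 / Th := div_pos ht0pos hThpos
  have hlampos : 0 < lam := Real.rpow_pos_of_pos hratio _
  have hlamn : lam ^ (n - p) = (t0 / Th) ^ (p - 1) := by
    rw [hlam, ← Real.rpow_mul hratio.le, div_mul_cancel₀ _ hpn.ne']
  have hlamq : (lam ^ (n - p)) ^ (-q) = Th / t0 := by
    rw [hlamn, ← Real.rpow_mul hratio.le, hq]
    have : (p - 1) * -(1 / (p - 1)) = -1 := by field_simp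
    rw [this, Real.rpow_neg_one, inv_div]
  set aL := lam ^ (n - p) with haL
  have haLpos : 0 < aL := Real.rpow_pos_of_pos hlampos _
  have hNl := star_scale hN hlampos
  have hDl := dens_scale h3 (by linarith) hN hD hlampos
  rw [← haL] at hDl
  set Nl : E n → ℝ := fun y => N (lam⁻¹ • y) with hNldef
  set Dl : ℝ → ℝ≥0∞ := fun t => ENNReal.ofReal aL * D t with hDldef
  have hTl : ∫⁻ t in Ioo 1 T, Dl t ^ (-q) = ENNReal.ofReal Th := by
    rw [hDldef, T0_scale hD, ← hT0def, hT0r, ENNReal.ofReal_rpow_of_pos haLpos, hlamq,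
      ← ENNReal.ofReal_mul (by positivity), div_mul_cancel₀ _ ht0pos.ne']
  -- the flux matching
  set d := aL * |d₂| with hd
  have hd0 : 0 ≤ d := by positivity
  have hDup : ∀ t : ℝ, 0 < t → Dl t ≤ ENNReal.ofReal (d * t ^ (n - 1)) := by
    intro t ht
    refine le_trans (hDl.upper t ht) (ENNReal.ofReal_le_ofReal ?_)
    refine mul_le_mul_of_nonneg_right ?_ (by positivity)
    exact mul_le_mul_of_nonneg_left (le_abs_self _) haLpos.le
  obtain ⟨h, c', C', hc', hh1, hhT, hhS, hhF⟩ := h5 p hp Dl hDl.meas 1 T (aL * d₁)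
    (d * T ^ (n - 1)) hT hDl.pos (by
      intro t ht
      have ht0 : 0 < t := by linarith [ht.1]
      constructor
      · refine le_trans (ENNReal.ofReal_le_ofReal ?_) (hDl.lower t ht0)
        have h9 : (1 : ℝ) ≤ t ^ (n - 1) := one_le_pow₀ ht.1
        have h10 := hDl.pos
        nlinarith
      · refine le_trans (hDup t ht0) (ENNReal.ofReal_le_ofReal ?_)
        refine mul_le_mul_of_nonneg_left ?_ hd0
        exact pow_le_pow_left₀ ht0.le ht.2 _) r R θ hrR hθ hθ0 (by rw [hTl])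
  -- choice of the small parameters
  obtain ⟨u, hu0, hu⟩ := choose_small (n - p) (om n * ε) d hpn (by positivity) hd0
  obtain ⟨v, hv0, hv⟩ := choose_small (p - 1) (om n * ε * (r / 2) ^ (n - 1)) d hp1'
    (by positivity) hd0
  set δ := min (1 / 2) (u * (r / 2)) with hδ
  set τ := min (r / 4) (v / 2) with hτ
  have hδ0 : 0 < δ := lt_min (by norm_num) (by positivity)
  have hδh : δ ≤ 1 / 2 := min_le_left _ _
  have hδ1 : δ < 1 := by linarith
  have hδu : δ ≤ u * (r / 2) := min_le_right _ _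
  have hτ0 : 0 < τ := lt_min (by positivity) (by positivity)
  have hτr : τ ≤ r / 4 := min_le_left _ _
  have hτv : τ ≤ v / 2 := min_le_right _ _
  have hτr' : τ < r := by linarith
  obtain ⟨k, K, hk, hK, hSl⟩ := HH_Sl hδ0 hδ1 hT hτ0 hτr' hh1 hhT hc' hhS
  set H := HH r R τ δ T h with hH
  have hmono : StrictMono H := hSl.strictMono hk
  have hH0 : H 0 = 0 := by
    rw [hH, HH_1 0 (mem_Iic.mpr hδ0.le)]
    ring
  have hHδ : H δ = r - τ := by
    rw [hH, HH_1 δ (mem_Iic.mpr le_rfl)]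
    field_simp
    ring
  have hH1 : H 1 = r := HH_one hδ1
  have hHT : H T = R := by
    rw [hH, HH_3 hδ1 hh1 T ⟨hT.le, le_rfl⟩, hhT]
  have hHm : Measurable H := hmono.monotone.measurable
  have hS := star_comp hNl hk hK hSl hH0
  set S : E n → ℝ := fun y => H (Nl y) with hSdef
  obtain ⟨f, hf1, hf2⟩ := h6 n _ _ S hS
  -- the function Q
  set θ' : ℝ → ℝ := IccExtend hrR.le (domRestrict (Icc r R) θ) with hθ'
  have hθ'c : Continuous θ' := (continuousOn_iff_continuous_domRestrict.mp hθ).Icc_extend'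
  have hθ'e : ∀ s ∈ Icc r R, θ' s = θ s := fun s hs => by
    rw [hθ', IccExtend_of_mem _ _ hs]
    rfl
  set g : ℝ → ℝ≥0∞ := fun s => ENNReal.ofReal (θ' s ^ (1 - p) / (om n * s ^ (n - 1))) with hg
  have hgm : Measurable g := by
    have := hθ'c.measurable
    fun_prop
  set Q : E n → ℝ≥0∞ := fun x => if ‖x‖ ≤ r then ENNReal.ofReal ε else
    if ‖x‖ < R then g ‖x‖ else 0 with hQ
  have hQm : Measurable Q := by
    refine Measurable.ite (measurableSet_le measurable_norm measurable_const) measurable_const ?_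
    refine Measurable.ite (measurableSet_lt measurable_norm measurable_const) ?_ measurable_const
    exact hgm.comp measurable_norm
  refine ⟨f, Q, hQm, ?_, ?_, ?_, ?_⟩
  · refine h7 n p _ _ S f (ball 0 R) Q (by linarith) hS hf1 isOpen_ball hQm ?_
    intro ρ hρ hρR B hB hBρ
    have hρlt : ρ < R := by
      have h9 : ρ • e ∈ closedBall (0 : E n) ρ := by
        rw [mem_closedBall, dist_zero_right, norm_smul, he, mul_one, Real.norm_of_nonneg hρ.le]
      have h10 := hρR h9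
      rwa [mem_ball, dist_zero_right, norm_smul, he, mul_one, Real.norm_of_nonneg hρ.le] at h10
    have hpos : ∀ B' : Set ℝ, B' ⊆ B → B' ⊆ Ioi 0 := fun B' hB' s hs => (hBρ (hB' hs)).1
    have hfl : ∀ B' : Set ℝ, MeasurableSet B' → B' ⊆ B →
        flux p S B' = ∫⁻ t in H ⁻¹' B', ‖deriv H t‖ₑ ^ p * Dl t := fun B' hB' hB'B =>
      flux_comp h4 hn hp.le hNl hDl hk hK hSl hH0 hB' (hpos B' hB'B)
    -- first piece
    have p1 : flux p S (B ∩ Ioo 0 (r - τ)) ≤ ∫⁻ x in {x : E n | ‖x‖ ∈ B ∩ Ioo 0 (r - τ)}, Q x := by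
      have hBm : MeasurableSet (B ∩ Ioo 0 (r - τ)) := hB.inter measurableSet_Ioo
      rw [hfl _ hBm inter_subset_left]
      have hκ : 0 < (r - τ) / δ := div_pos (by linarith) hδ0
      refine le_trans (piece (n := n) (β := 0) (ε := ε) (by omega) hκ
        (G := fun s => ENNReal.ofReal (d * (s / ((r - τ) / δ)) ^ (n - 1))) (by fun_prop) hBm
        (hpos _ inter_subset_left) hHm ?_ ?_) ?_
      · intro t ht
        have ht1 : t < δ := by
          have : H t < H δ := by rw [hHδ]; exact ht.2.2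
          exact hmono.lt_iff_lt.mp this
        have ht0 : 0 < t := by
          have : H 0 < H t := by rw [hH0]; exact ht.2.1
          exact hmono.lt_iff_lt.mp this
        have ht2 : H t = (r - τ) / δ * t + 0 := HH_1 t (mem_Iic.mpr ht1.le)
        refine ⟨HH_deriv1 ht1, ht2, ?_⟩
        have ht3 : H t / ((r - τ) / δ) = t := by
          rw [ht2, add_zero, mul_div_cancel_left₀ _ hκ.ne']
        rw [ht3]
        exact hDup t ht0
      · intro s hs
        refine real1 (by omega) hκ hs.2.1 hε ?_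
        refine le_trans ?_ hu
        refine mul_le_mul_of_nonneg_right ?_ hd0
        have h9 : (((r - τ) / δ) : ℝ) ^ (p - n) = (δ / (r - τ)) ^ (n - p) := by
          rw [← inv_div (r - τ) δ, Real.inv_rpow hκ.le, ← Real.rpow_neg hκ.le]
          congr 1
          ring
        rw [h9]
        refine Real.rpow_le_rpow (div_nonneg hδ0.le (by linarith)) ?_ hpn.le
        rw [div_le_iff₀ (by linarith)]
        refine le_trans hδu ?_
        exact mul_le_mul_of_nonneg_left (by linarith) hu0.le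
      · refine setLIntegral_mono' (measurable_norm hBm) fun x hx => ?_
        simp only [hQ]
        have : ‖x‖ ≤ r := by
          have := hx.2.2
          linarith
        rw [if_pos this]
    -- second piece
    have p2 : flux p S (B ∩ Ioo (r - τ) r) ≤ ∫⁻ x in {x : E n | ‖x‖ ∈ B ∩ Ioo (r - τ) r}, Q x := by
      have hBm : MeasurableSet (B ∩ Ioo (r - τ) r) := hB.inter measurableSet_Ioo
      rw [hfl _ hBm inter_subset_left]
      have hκ : 0 < τ / (1 - δ) := div_pos hτ0 (by linarith)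
      refine le_trans (piece (n := n) (β := r - τ - τ / (1 - δ) * δ) (ε := ε) (by omega) hκ
        (G := fun _ => ENNReal.ofReal d) (by fun_prop) hBm
        (hpos _ inter_subset_left) hHm ?_ ?_) ?_
      · intro t ht
        have ht1 : δ < t := by
          have : H δ < H t := by rw [hHδ]; exact ht.2.1
          exact hmono.lt_iff_lt.mp this
        have ht2 : t < 1 := by
          have : H t < H 1 := by rw [hH1]; exact ht.2.2
          exact hmono.lt_iff_lt.mp this
        refine ⟨HH_deriv2 hδ0 ⟨ht1, ht2⟩, HH_2 hδ0 t ⟨ht1.le, ht2.le⟩, ?_⟩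
        refine le_trans (hDup t (by linarith)) (ENNReal.ofReal_le_ofReal ?_)
        have h9 : t ^ (n - 1) ≤ 1 := pow_le_one₀ (by linarith) ht2.le
        nlinarith
      · intro s hs
        refine real2 (s₀ := r / 2) (by omega) hκ (by linarith) (by linarith [hs.2.1]) hε ?_
        refine le_trans ?_ hv
        refine mul_le_mul_of_nonneg_right ?_ hd0
        refine Real.rpow_le_rpow hκ.le ?_ hp1'.le
        rw [div_le_iff₀ (by linarith)]
        nlinarith
      · refine setLIntegral_mono' (measurable_norm hBm) fun x hx => ?_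
        simp only [hQ]
        have : ‖x‖ ≤ r := hx.2.2.le
        rw [if_pos this]
    -- third piece
    have p3 : flux p S (B ∩ Ioo r R) ≤ ∫⁻ x in {x : E n | ‖x‖ ∈ B ∩ Ioo r R}, Q x := by
      have hBm : MeasurableSet (B ∩ Ioo r R) := hB.inter measurableSet_Ioo
      rw [hfl _ hBm inter_subset_left]
      have e1 : ∫⁻ t in H ⁻¹' (B ∩ Ioo r R), ‖deriv H t‖ₑ ^ p * Dl t ≤
          ∫⁻ t in Ioo 1 T, (B ∩ Ioo r R).indicator 1 (h t) * ‖deriv h t‖ₑ ^ p * Dl t := by
        rw [← lintegral_indicator (hHm hBm), ← lintegral_indicator measurableSet_Ioo]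
        refine lintegral_mono fun t => ?_
        by_cases ht : H t ∈ B ∩ Ioo r R
        · have ht1 : 1 < t := by
            have : H 1 < H t := by rw [hH1]; exact ht.2.1
            exact hmono.lt_iff_lt.mp this
          have ht2 : t < T := by
            have : H t < H T := by rw [hHT]; exact ht.2.2
            exact hmono.lt_iff_lt.mp this
          have ht3 : H t = h t := HH_3 hδ1 hh1 t ⟨ht1.le, ht2.le⟩
          rw [indicator_of_mem (show t ∈ H ⁻¹' (B ∩ Ioo r R) from ht),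
            indicator_of_mem (show t ∈ Ioo 1 T from ⟨ht1, ht2⟩), ← ht3, indicator_of_mem ht,
            hH, HH_deriv3 hδ1 hh1 ⟨ht1, ht2⟩]
          simp
        · rw [indicator_of_notMem (show t ∉ H ⁻¹' (B ∩ Ioo r R) from ht)]
          exact bot_le
      refine le_trans e1 (le_trans (hhF _ (measurable_one.indicator hBm)) ?_)
      have e2 : ∫⁻ x in {x : E n | ‖x‖ ∈ B ∩ Ioo r R}, Q x =
          ∫⁻ x in {x : E n | ‖x‖ ∈ B ∩ Ioo r R}, g ‖x‖ := by
        refine setLIntegral_congr_fun (measurable_norm hBm) fun x hx => ?_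
        simp only [hQ]
        rw [if_neg (not_le.mpr hx.2.1), if_pos hx.2.2]
      rw [e2, polar n (by omega) g hgm _ hBm (hpos _ inter_subset_left),
        ← lintegral_const_mul _ (by fun_prop), ← lintegral_indicator hBm,
        ← lintegral_indicator measurableSet_Ioo]
      refine lintegral_mono fun s => ?_
      by_cases hs : s ∈ B ∩ Ioo r R
      · rw [indicator_of_mem hs.2, indicator_of_mem hs, indicator_of_mem hs, Pi.one_apply,
          one_mul]
        have hs0 : 0 < s := lt_trans hr hs.2.1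
        have hθs : 0 < θ s := hθ0 s ⟨hs.2.1.le, hs.2.2.le⟩
        simp only [hg]
        rw [hθ'e s ⟨hs.2.1.le, hs.2.2.le⟩, ← ENNReal.ofReal_mul (by positivity),
          ← ENNReal.ofReal_mul (by positivity)]
        refine ENNReal.ofReal_le_ofReal (le_of_eq ?_)
        field_simp
      · by_cases hs2 : s ∈ Ioo r R
        · rw [indicator_of_mem hs2, indicator_of_notMem hs, zero_mul]
          exact bot_le
        · rw [indicator_of_notMem hs2]
          exact bot_le
    -- the two spheres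
    have p4 : flux p S (B ∩ {r - τ, r}) = 0 := by
      have h9 : volume (S ⁻¹' (B ∩ {r - τ, r})) = 0 := by
        refine (h2 n p _ _ S hn hp.le hS).2 _ (hpos _ inter_subset_left) ?_
        refine measure_mono_null inter_subset_right ?_
        exact (Set.toFinite {r - τ, r}).measure_zero _
      unfold flux
      exact setLIntegral_measure_zero _ _ h9
    -- assembly
    have hsub : B ⊆ ((B ∩ Ioo 0 (r - τ)) ∪ (B ∩ Ioo (r - τ) r)) ∪ ((B ∩ Ioo r R) ∪
        (B ∩ {r - τ, r})) := by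
      intro s hs
      have hs1 := hBρ hs
      rcases lt_trichotomy s (r - τ) with h9 | h9 | h9
      · exact Or.inl (Or.inl ⟨hs, hs1.1, h9⟩)
      · exact Or.inr (Or.inr ⟨hs, Or.inl h9⟩)
      · rcases lt_trichotomy s r with h10 | h10 | h10
        · exact Or.inl (Or.inr ⟨hs, h9, h10⟩)
        · exact Or.inr (Or.inr ⟨hs, Or.inr h10⟩)
        · exact Or.inr (Or.inl ⟨hs, h10, lt_trans hs1.2 hρlt⟩)
    have hfu : ∀ B1 B2 : Set ℝ, flux p S (B1 ∪ B2) ≤ flux p S B1 + flux p S B2 := by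
      intro B1 B2
      unfold flux
      rw [preimage_union]
      exact lintegral_union_le _ _ _
    have hfm : ∀ B1 B2 : Set ℝ, B1 ⊆ B2 → flux p S B1 ≤ flux p S B2 := by
      intro B1 B2 h12
      unfold flux
      exact lintegral_mono_set (preimage_mono h12)
    have q1 : flux p S B ≤ (∫⁻ x in {x : E n | ‖x‖ ∈ B ∩ Ioo 0 (r - τ)}, Q x) +
        (∫⁻ x in {x : E n | ‖x‖ ∈ B ∩ Ioo (r - τ) r}, Q x) +
        ∫⁻ x in {x : E n | ‖x‖ ∈ B ∩ Ioo r R}, Q x := by
      refine le_trans (hfm _ _ hsub) (le_trans (hfu _ _) ?_)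
      refine add_le_add (le_trans (hfu _ _) (add_le_add p1 p2)) (le_trans (hfu _ _) ?_)
      rw [p4, add_zero]
      exact p3
    refine le_trans q1 ?_
    have m2 : MeasurableSet {x : E n | ‖x‖ ∈ B ∩ Ioo (r - τ) r} :=
      measurable_norm (hB.inter measurableSet_Ioo)
    have m3 : MeasurableSet {x : E n | ‖x‖ ∈ B ∩ Ioo r R} :=
      measurable_norm (hB.inter measurableSet_Ioo)
    rw [← lintegral_union m2, ← lintegral_union m3]
    · refine lintegral_mono_set ?_
      rintro x ((hx | hx) | hx)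
      · exact hx.1
      · exact hx.1
      · exact hx.1
    · rw [Set.disjoint_left]
      rintro x (hx | hx) hx'
      · have := hx.2.2
        have := hx'.2.1
        linarith
      · have := hx.2.2
        have := hx'.2.1
        linarith
    · rw [Set.disjoint_left]
      intro x hx hx'
      have := hx.2.2
      have := hx'.2.1
      linarith
  · intro x hx1 hx2
    simp only [hQ, hg]
    rw [if_neg (not_le.mpr hx1), if_pos hx2, hθ'e _ ⟨hx1.le, hx2.le⟩]
  · intro x hx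
    simp only [hQ]
    rw [if_pos hx]
  · refine ⟨r • e, by rw [norm_smul, he, mul_one, Real.norm_of_nonneg hr.le], ?_⟩
    have hnx : ‖r • e‖ = r := by rw [norm_smul, he, mul_one, Real.norm_of_nonneg hr.le]
    have hN1 : N e = 1 := by
      have := hNe 1 ⟨zero_le_one, le_rfl⟩
      rwa [one_smul] at this
    have hSl1 : S (lam • e) = r := by
      simp only [hSdef, hNldef]
      rw [smul_smul, inv_mul_cancel₀ hlampos.ne', one_smul, hN1, hH1]
    obtain ⟨s, hs0, hs⟩ := hf2 (r • e)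
    have hSf : S (f (r • e)) = r := by rw [hf1, hnx]
    rw [hs, smul_smul] at hSf
    have hinj : ∀ a b : ℝ, 0 ≤ a → a < b → S (a • e) < S (b • e) := by
      intro a b ha hab
      have hb : 0 < b := lt_of_le_of_lt ha hab
      have h9 := hS.slope (b • e) (a / b) ⟨by positivity, by rw [div_le_one hb]; exact hab.le⟩
      rw [smul_smul, div_mul_cancel₀ _ hb.ne', norm_smul, he, mul_one,
        Real.norm_of_nonneg hb.le] at h9
      have h10 : 0 < 1 - a / b := by
        rw [sub_pos, div_lt_one hb]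
        exact hab
      have h11 := hS.cpos
      have h12 : 0 < k * (c / lam) * (1 - a / b) * b := by positivity
      linarith
    have hsr : s * r = lam := by
      rcases lt_trichotomy (s * r) lam with h9 | h9 | h9
      · have := hinj _ _ (by positivity) h9
        rw [hSf, hSl1] at this
        exact absurd this (lt_irrefl _)
      · exact h9
      · have := hinj _ _ hlampos.le h9
        rw [hSf, hSl1] at this
        exact absurd this (lt_irrefl _)
    have hf0 : f 0 = 0 := by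
      obtain ⟨s', _, hs'⟩ := hf2 0
      rw [hs', smul_zero]
    rw [hf0, sub_zero, hs, smul_smul, hsr, norm_smul, he, mul_one,
      Real.norm_of_nonneg hlampos.le, ← haL, hlamn, Real.div_rpow ht0pos.le hThpos.le]
    have h9 : (kap n p + ε)⁻¹ ≤ t0 ^ (p - 1) := by
      have h10 := Real.rpow_le_rpow (Real.rpow_nonneg hkp.le _) ht0ge hp1'.le
      rw [← Real.rpow_mul hkp.le] at h10
      have h11 : -q * (p - 1) = -1 := by
        rw [hq]
        field_simp
      rwa [h11, Real.rpow_neg_one] at h10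
    have h10 : Th ^ (1 - p) = (Th ^ (p - 1))⁻¹ := by
      rw [← Real.rpow_neg hThpos.le]
      congr 1
      ring
    rw [h10]
    have h11 : 0 < Th ^ (p - 1) := Real.rpow_pos_of_pos hThpos _
    have h12 : 1 ≤ t0 ^ (p - 1) * (kap n p + ε) := by
      have := mul_le_mul_of_nonneg_right h9 hkp.le
      rwa [inv_mul_cancel₀ hkp.ne'] at this
    rw [div_mul_eq_mul_div, le_div_iff₀ h11, inv_mul_cancel₀ h11.ne']
    exact h12

end Pool.Agent.Helper26.RQ
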